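import Pool.Agent.H75.OM.TA

/-!
# Omnipotent for quantum computers, useless for circuits: row INJ
-/

set_option autoImplicit false

namespace Pool.Agent.H79.OMN

open Finset Pool.Agent.H75.OM Pool.Agent.H6.NB Pool.Agent.H70.OQ Pool.Agent.H70.EH
  Pool.Agent.H70.EI Pool.Agent.H78.XQ

theorem pf_INJ : T_INJ := by
  intro A B _ _ _ _ ι F hι
  classical
  unfold mn
  have hc : (2 : ℝ) ^ Fintype.card B = (2 : ℝ) ^ Fintype.card A *
      (2 : ℝ) ^ Fintype.card {b : B // ¬ b ∈ Set.range ι} := by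
    have h1 := Fintype.card_congr
      (Equiv.piEquivPiSubtypeProd (fun b => b ∈ Set.range ι) (fun _ : B => Bool))
    rw [Fintype.card_prod, Fintype.card_fun, Fintype.card_fun, Fintype.card_fun,
      Fintype.card_bool, ← Fintype.card_congr (Equiv.ofInjective ι hι)] at h1
    exact_mod_cast h1
  have h1 : ∑ y : B → Bool, F (fun a => y (ι a)) =
      ∑ z : ({b // b ∈ Set.range ι} → Bool) × ({b // ¬ b ∈ Set.range ι} → Bool),
        F (fun a => z.1 ⟨ι a, a, rfl⟩) :=
    Fintype.sum_equiv (Equiv.piEquivPiSubtypeProd (fun b => b ∈ Set.range ι)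
      (fun _ : B => Bool)) _ _ fun y => rfl
  have h2 : ∑ u : {b // b ∈ Set.range ι} → Bool, F (fun a => u ⟨ι a, a, rfl⟩) =
      ∑ x : A → Bool, F x :=
    Fintype.sum_equiv ((Equiv.ofInjective ι hι).symm.arrowCongr (Equiv.refl Bool)) _ _
      fun u => rfl
  rw [h1, Fintype.sum_prod_type]
  simp only [Finset.sum_const, Finset.card_univ, Fintype.card_fun, Fintype.card_bool,
    nsmul_eq_mul]
  rw [← Finset.mul_sum, h2, hc]
  push_cast
  have h3 : (2 : ℝ) ^ Fintype.card {b : B // ¬ b ∈ Set.range ι} ≠ 0 := by positivity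
  field_simp

end Pool.Agent.H79.OMN
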